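import Pool.Agent.N783.PF.Loc

/-!
# Project PF (helper783), part TW (helper170): a twist with trivial 2-Selmer group

After the last part of `N891/PQ/Tw.lean` of helper891.
-/

set_option autoImplicit false
set_option linter.all false

open Polynomial IsDedekindDomain Matrix NumberField WithZero
open scoped Classical

namespace Pool.Agent.N170.PF

open Pool.Agent.N352.PJ (Mt Typ dd)
open Pool.Agent.N783.PQ (chp form Dist Gap Mid Deep eA eB eU uu LocIm)
open Pool.Agent.N874.JM (LocF)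
open Pool.Agent.N783.PF

theorem LBad.mono {F : Type} [Field F] [NumberField F] {g N c c' : ℕ} {S : Finset ℕ}
    {𝔮 : ℕ → Ideal (𝓞 F)} {P : ℕ → (𝓞 F)[X]} {f : (𝓞 F)[X]} (hc : c ≤ c')
    (H : LBad g N c S 𝔮 P f) : LBad g N c' S 𝔮 P f := by
  obtain ⟨h1, w, h2, h3, h4, A, B, ⟨hb, hcon, hd⟩, hch⟩ := H
  refine ⟨h1, w, h2, h3, ?_, A, B, ⟨⟨hb.sA, hb.sB, ?_, hb.tr, ?_, hb.bB⟩, hcon, hd⟩, hch⟩
  · rcases h4 with h4 | h4
    · exact Or.inl h4
    · right
      unfold Deep at h4 ⊢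
      have : (c : ℤ) ≤ c' := by exact_mod_cast hc
      linarith
  · obtain ⟨x, hx0, hx1, hx2⟩ := hb.det
    exact ⟨x, hx0, hx1, hx2.trans (Nat.pow_le_pow_right (by norm_num) hc)⟩
  · intro i j σ
    refine (hb.bA i j σ).trans ?_
    refine zpow_le_zpow_right₀ (by norm_num) ?_
    have : (c : ℤ) ≤ c' := by exact_mod_cast hc
    linarith

theorem irr_scale {K : Type} [Field K] {p : K[X]} {D : K} (hD : D ≠ 0) (hp : Irreducible p) :
    Irreducible (p.scaleRoots D) := by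
  have hp0 : p.scaleRoots D ≠ 0 := scaleRoots_ne_zero hp.ne_zero D
  constructor
  · intro hu
    apply hp.not_isUnit
    rw [isUnit_iff_degree_eq_zero] at hu ⊢
    rwa [degree_scaleRoots] at hu
  · intro a b hab
    have h1 : p = a.scaleRoots D⁻¹ * b.scaleRoots D⁻¹ := by
      rw [← mul_scaleRoots_of_noZeroDivisors, ← hab, ← scaleRoots_mul, mul_inv_cancel₀ hD,
        scaleRoots_one]
    rcases hp.isUnit_or_isUnit h1 with h | h
    · left
      rw [isUnit_iff_degree_eq_zero] at h ⊢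
      rwa [degree_scaleRoots] at h
    · right
      rw [isUnit_iff_degree_eq_zero] at h ⊢
      rwa [degree_scaleRoots] at h

theorem fF_scale {F : Type} [Field F] [NumberField F] {f : (𝓞 F)[X]} (hm : f.Monic) (D : ℕ) :
    fF (f.scaleRoots (D : 𝓞 F)) = (fF f).scaleRoots (D : F) := by
  unfold fF
  rw [map_scaleRoots]
  · rw [map_natCast]
  · rw [hm.leadingCoeff, map_one]
    exact one_ne_zero

/-- From the absence of bad elements to a twist without 2-Selmer group. -/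
theorem tw (h1 : S_SQF) (h2 : S_IRR) (h3 : S_GEN) (h4 : S_CORE) (h5 : S_LOC) (h6 : S_MIN) :
    S_TW := by
  intro g F _ _ hg
  obtain ⟨κ₁, hκ₁⟩ := h4 g F hg
  obtain ⟨κ₂, hκ₂⟩ := h1 g F hg
  refine ⟨max κ₁ κ₂, fun B N W f₁ S 𝔮 r P f hW hf₁ hS hF hBN hB hnb => ?_⟩
  have hBN1 : 2 ^ κ₁ * B ≤ 4 ^ N :=
    (Nat.mul_le_mul_right _ (Nat.pow_le_pow_right (by norm_num) (le_max_left _ _))).trans hBN
  have hBN2 : 2 ^ κ₂ * B ≤ 4 ^ N :=
    (Nat.mul_le_mul_right _ (Nat.pow_le_pow_right (by norm_num) (le_max_right _ _))).trans hBN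
  have hnb1 : ¬ LBad g N κ₁ S 𝔮 P f := fun h => hnb (LBad.mono (le_max_left _ _) h)
  have hnb2 : ¬ LBad g N κ₂ S 𝔮 P f := fun h => hnb (LBad.mono (le_max_right _ _) h)
  have hm := hF.ht.mon
  have hd := hF.ht.deg
  have hirr : Irreducible (fF f) := h2 F g W f₁ f hf₁ hF.one hm hd
  have hsq : SqF g f := hκ₂ B N W f₁ S 𝔮 r P f ((le_max_right _ _).trans hW) hf₁ hS hF hirr hBN2
    hB hnb2
  obtain ⟨L, _, _, _, θ, hc⟩ := h3 F g f hm hd hirr
  obtain ⟨J, hJ, hcore⟩ := hκ₁ L f f₁ θ B N W S 𝔮 r P ((le_max_left _ _).trans hW) hc hsq hf₁ hS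
    hF hBN1 hB hnb1
  refine ⟨J, hJ, ?_⟩
  have hloc5 := h5 g W F L f f₁ θ S J 𝔮 r P hg hc hsq hf₁ hS hF.one hF.con hJ
  have hD0 : Dp J ≠ 0 := by
    rw [Dp, Finset.prod_ne_zero_iff]
    exact fun q hq => (hS q (hJ hq)).1.ne_zero
  have hmin := h6 g W F S J 𝔮 r P f hg hS hsq hm hd hF.con hJ
  generalize hDD : Dp J = D at hD0 hloc5 hmin ⊢
  have hD0F : (D : F) ≠ 0 := Nat.cast_ne_zero.2 hD0
  have hmD : (f.scaleRoots (D : 𝓞 F)).Monic := (monic_scaleRoots_iff (D : 𝓞 F)).2 hm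
  have hirrD : Irreducible (fF (f.scaleRoots (D : 𝓞 F))) := by
    rw [fF_scale hm]
    exact irr_scale hD0F hirr
  refine ⟨hirrD, ?_, hmin⟩
  intro h hcop hnorm hloc hlocR
  obtain ⟨F', hF'⟩ : ∃ F' : F[X], F' = fF (f.scaleRoots (D : 𝓞 F)) := ⟨_, rfl⟩
  obtain ⟨Θ, hΘ⟩ : ∃ Θ : L, Θ = (D : L) * θ := ⟨_, rfl⟩
  have hsel := hloc5 h
  have hcomp : aeval θ (h.comp (C (D : F) * X)) = aeval Θ h := by
    rw [aeval_comp, map_mul, aeval_C, aeval_X, hΘ, map_natCast]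
  rw [← hΘ] at hsel
  have hroot : aeval Θ F' = 0 := by
    have e1 := scaleRoots_eval₂_mul (p := fF f) (algebraMap F L) θ (D : F)
    have e2 : eval₂ (algebraMap F L) θ (fF f) = 0 := by
      rw [← aeval_def]
      exact hc.root
    rw [e2, mul_zero, map_natCast] at e1
    rw [hF', fF_scale hm, aeval_def, hΘ]
    exact e1
  have hmF' : F'.Monic := by
    rw [hF']
    exact hmD.map _
  have hdF' : F'.natDegree = 2 * g + 1 := by
    rw [hF', fF, hmD.natDegree_map, natDegree_scaleRoots, hd]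
  rw [← hF'] at hirrD hcop hnorm ⊢
  haveI hfact' : Fact (Irreducible F') := ⟨hirrD⟩
  obtain ⟨φ, hφ⟩ : ∃ φ : AdjoinRoot F' →ₐ[F] L, φ = AdjoinRoot.liftAlgHom F' (Algebra.ofId F _) Θ hroot :=
    ⟨_, rfl⟩
  have hφmk : ∀ p : F[X], φ (AdjoinRoot.mk F' p) = aeval Θ p := by
    intro p
    have h1 := AdjoinRoot.liftAlgHom_mk F' (Algebra.ofId F L) Θ hroot p
    rw [Algebra.toRingHom_ofId, ← Polynomial.aeval_def] at h1
    rw [hφ]
    exact h1
  have hφinj : Function.Injective φ := φ.toRingHom.injective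
  haveI : FiniteDimensional F (AdjoinRoot F') := hmF'.finite_adjoinRoot
  haveI : FiniteDimensional F L := Module.finite_of_finrank_pos (by rw [hc.rank]; omega)
  have hrk : Module.finrank F (AdjoinRoot F') = Module.finrank F L := by
    rw [hc.rank, (AdjoinRoot.powerBasis hmF'.ne_zero).finrank, AdjoinRoot.powerBasis_dim, hdF']
  have hφsurj : Function.Surjective φ :=
    (LinearMap.injective_iff_surjective_of_finrank_eq_finrank (f := φ.toLinearMap) hrk).1 hφinj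
  obtain ⟨e, he⟩ : ∃ e : AdjoinRoot F' ≃ₐ[F] L, ∀ x, e x = φ x :=
    ⟨AlgEquiv.ofBijective φ ⟨hφinj, hφsurj⟩, fun _ => rfl⟩
  have hemk : ∀ p : F[X], e (AdjoinRoot.mk F' p) = aeval Θ p := fun p => (he _).trans (hφmk p)
  have hne : aeval Θ h ≠ 0 := by
    intro h0
    obtain ⟨u, v, huv⟩ := hcop
    have := congrArg (aeval Θ) huv
    rw [map_add, map_mul, map_mul, hroot, h0, mul_zero, mul_zero, add_zero, map_one] at this
    exact zero_ne_one this
  have hnorm' : IsSquare (Algebra.norm F (aeval Θ h)) := by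
    rw [← hemk, Algebra.norm_eq_of_algEquiv]
    exact hnorm
  obtain ⟨k1, k2, k3, k4⟩ := hsel hne hnorm' hloc hlocR
  have hcore' := hcore (h.comp (C (D : F) * X))
  rw [hcomp] at hcore'
  obtain ⟨y, hy⟩ := hcore' hne hnorm' k1 k2 k3 k4
  obtain ⟨z, rfl⟩ := hφsurj y
  obtain ⟨s, rfl⟩ := AdjoinRoot.mk_surjective z
  refine ⟨s, ?_⟩
  rw [← AdjoinRoot.mk_eq_zero]
  apply hφinj
  rw [map_zero, hφmk, map_sub, map_pow, sub_eq_zero]
  rw [hφmk] at hy
  rw [pow_two]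
  exact hy

end Pool.Agent.N170.PF
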